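import Mathlib
import Pool.Agent.H8.PermLLL

namespace Pool.Agent.Results.MP_626dc7_co.Linear

open Finset

/-- The Hamilton cycle `σ 0, σ 1, ..., σ (n-1)` is `(2,2)`-acceptable for `F`. -/
def Acceptable {n : ℕ} (F : Finset (Finset (Fin n))) (σ : Equiv.Perm (Fin n)) : Prop :=
  ∀ i j, Disjoint ({σ i, σ (finRotate n i)} : Finset (Fin n)) {σ j, σ (finRotate n j)} →
    ({σ i, σ (finRotate n i)} ∪ {σ j, σ (finRotate n j)}) ∉ F

/-- The 2-degree of `F`. -/
def d2 {n : ℕ} (F : Finset (Finset (Fin n))) : ℕ :=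
  (powersetCard 2 univ).sup fun D => (F.filter fun S => D ⊆ S).card

/-- `m_2((2,2), n)`. -/
noncomputable def m2 (n : ℕ) : ℕ :=
  sInf {d | ∃ F : Finset (Finset (Fin n)), (∀ S ∈ F, S.card = 4) ∧ (∀ σ, ¬ Acceptable F σ) ∧
    d2 F = d}

lemma full (m : ℕ) (σ : Equiv.Perm (Fin (m + 4))) : ¬ Acceptable (powersetCard 4 univ) σ := by
  intro h
  have e0 : finRotate (m + 4) 0 = ⟨1, by omega⟩ := by
    ext; rw [finRotate_apply, Fin.val_add_one_of_lt (by simp [Fin.lt_def])]; rfl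
  have e2 : finRotate (m + 4) ⟨2, by omega⟩ = ⟨3, by omega⟩ := by
    ext; rw [finRotate_apply, Fin.val_add_one_of_lt (by simp [Fin.lt_def])]
  have hd : Disjoint ({σ 0, σ (finRotate _ 0)} : Finset (Fin (m + 4)))
      {σ ⟨2, by omega⟩, σ (finRotate _ ⟨2, by omega⟩)} := by
    rw [e0, e2]; simp [Fin.ext_iff]
  refine h _ _ hd (mem_powersetCard.2 ⟨subset_univ _, ?_⟩)
  rw [card_union_of_disjoint hd, e0, e2, card_pair (by simp [Fin.ext_iff]),
    card_pair (by simp [Fin.ext_iff])]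

theorem result : ∃ c : ℝ, 0 < c ∧ ∀ n, 8 ≤ n → c * n ≤ m2 n := by
  refine ⟨1 / 2 ^ 19, by positivity, fun n hn => ?_⟩
  obtain ⟨F, hF, hA, hd⟩ := Nat.sInf_mem (s := {d | ∃ F : Finset (Finset (Fin n)),
      (∀ S ∈ F, S.card = 4) ∧ (∀ σ, ¬ Acceptable F σ) ∧ d2 F = d}) (by
    obtain ⟨m, rfl⟩ : ∃ m, n = m + 4 := ⟨n - 4, by omega⟩
    exact ⟨_, _, fun S hS => (mem_powersetCard.1 hS).2, full m, rfl⟩)
  have hD : ∀ v, (F.filter fun S => v ∈ S).card ≤ n * d2 F := by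
    intro v
    have : (F.filter fun S => v ∈ S) ⊆
        (univ.erase v).biUnion fun u => F.filter fun S => {v, u} ⊆ S := by
      intro S hS
      obtain ⟨h1, h2⟩ := mem_filter.1 hS
      obtain ⟨u, hu, huv⟩ := exists_mem_ne (by rw [hF S h1]; norm_num) v
      exact mem_biUnion.2 ⟨u, by simp [huv], mem_filter.2 ⟨h1, by simp [insert_subset_iff, *]⟩⟩
    refine (card_le_card this).trans ((card_biUnion_le_card_mul _ _ (d2 F) fun u hu => ?_).trans
      (Nat.mul_le_mul_right _ (by simp)))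
    exact le_sup (f := fun D => (F.filter fun S => D ⊆ S).card)
      (mem_powersetCard.2 ⟨subset_univ _, card_pair (ne_of_mem_erase hu).symm⟩)
  have h : n < 2 ^ 19 * m2 n := by
    by_contra hc
    obtain ⟨σ, hσ⟩ := H8.PermLLL.exists_cycle hn F hF _ hD (by
      rw [hd, mul_left_comm, sq]
      exact Nat.mul_le_mul_left _ (not_lt.1 hc))
    exact hA σ fun i j _ => hσ i j
  have h' : (n : ℝ) < 2 ^ 19 * m2 n := by exact_mod_cast h
  linarith

end Pool.Agent.Results.MP_626dc7_co.Linear
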